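import Pool.Agent.V5helper92.WC.SemDefs

/-!
# Semisimplicity of Galois representations for schemes which are built from known cases

For a scheme `X` over a field `k` of characteristic zero the graded pieces `Gr^W_w H^n_c(X, ℚ_ℓ)` of the
cohomology with compact support are the realizations of motives (of André); `T` is such a theory of
motives, with realizations over the field `Ω = ℚ_ℓ`. For smooth projective varieties
`H^n(X, ℚ_ℓ) = Gr^W_n H^n_c(X, ℚ_ℓ)`.

For a class `S` of schemes over `k` the class `BuiltFrom k d S` is the smallest class of schemes over `k`
which contains `S` and the separated schemes of finite type of dimension at most `d` and which is stable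
under isomorphisms, closed-open decompositions (two of the three schemes are in the class, then so is
the third), affine bundles of Jouanolou's type, the passage from `X × 𝔾_m` to `X`, products of affine
schemes, and the passage from `Y` to `X` for finite free coverings `Y → X` of affine schemes.

The theorem has a purely geometric part, over any field: for `d ≥ 1` the schemes which are given by
polynomials with separated variables are in the class `C = BuiltFrom k d S`, if the variables are grouped
in such a way that the parts `f_i` of the polynomials are in the class `SepFrom k d C`. This class of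
polynomials contains all `f` which are homogeneous of degree `e ≠ 0` for some weights of the variables
and for which `{f = 1}` is in `C`, and it is stable under many substitutions.

The second part: all motives `Gr^W_w H^n_c(X)` of the schemes in `C` are in the tensor category generated by
the motives `H^i(Y)` of the smooth projective varieties `Y` of dimension at most `d` and by the motives
`Gr^W_w H^n_c(X')` of the schemes `X'` in `S`. Hence semisimplicity of the Galois representations passes
from dimension at most `d` and from `S` to `C`.

For `d = 1` one can take for `S` the class `AbelianKnown k`: abelian varieties, smooth cubic hypersurfaces of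
dimension at most five, smooth quartic hypersurfaces of dimension at most three, and the affine
hypersurfaces `f = 1` for smooth cubic forms in at most six variables and smooth quartic forms in at most
four variables. The motives of the schemes which are built from these are of abelian type, and the
representations are semisimple if `k` is finitely generated, by the theorem of Faltings.
-/

set_option autoImplicit false

open CategoryTheory AlgebraicGeometry
open Pool.Agent.Y116.UV Pool.Agent.V5helper77.GW Pool.Agent.V5helper77.GS Pool.Agent.V5helper94.SV
  Pool.Agent.V5helper52.SF Pool.Agent.V5helper92.WC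

namespace Pool.Agent.Results.MP_b4801b_ag.BuiltFromKnownCases

variable {k : Type} [Field k] {Ω : Type} [Field Ω]

section

variable {C : Type 1} [Category.{0} C] [Abelian C] {V : ℤ → ℤ → Sch k → C} {tw : ℤ → C → C}
  {ten : C → C → C} {d : ℕ} {S : Sch k → Prop}

lemma typeFrom_class : IsTensorClass (TypeFrom V tw ten d S) tw ten where
  zero _ h := .zero h
  retract i r h hN := .retract i r h hN
  sum hM hN := .sum hM hN
  twist r _ := ⟨.untwist r, .twist r⟩
  tensor hM hN := .tensor hM hN

/-- Induction over the motives which come from dimension at most `d` and from `S`. -/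
lemma typeFrom_le {Q : C → Prop} (hQ : IsTensorClass Q tw ten) (h1 : Q (V 0 0 (aff k k)))
    (hc : ∀ X : Sch k, IsSmProj X → topologicalKrullDim X.left ≤ d → ∀ i : ℤ, Q (V i i X))
    (hS : ∀ X : Sch k, S X → ∀ w n : ℤ, Q (V w n X)) {M : C} (hM : TypeFrom V tw ten d S M) :
    Q M := by
  induction hM with
  | point => exact h1
  | variety hX hd i => exact hc _ hX hd i
  | base hX w n => exact hS _ hX w n
  | zero h => exact hQ.zero _ h
  | retract i r h _ ih => exact hQ.retract i r h ih
  | sum _ _ ih ih' => exact hQ.sum ih ih'
  | twist r _ ih => exact (hQ.twist r _).mpr ih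
  | untwist r _ ih => exact (hQ.twist r _).mp ih
  | tensor _ _ ih ih' => exact hQ.tensor ih ih'

/-- All graded pieces of the schemes which are built from dimension at most `d` and from `S` are in a
tensor class, if this holds for dimension at most `d` and for `S`. -/
lemma pieces [PerfectField k] (hV : IsTensorTheory V tw ten) (hH : Hironaka k) (hd : 1 ≤ d)
    {Q : C → Prop} (hQ : IsTensorClass Q tw ten) (h1 : AllPieces V (fun _ M => Q M) (aff k k))
    (hc : ∀ X : Sch k, IsSmProj X → topologicalKrullDim X.left ≤ d → ∀ i : ℤ, Q (V i i X))
    (hS : ∀ X : Sch k, S X → ∀ w n : ℤ, Q (V w n X)) {X : Sch k} (hX : BuiltFrom k d S X) :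
    ∀ w n : ℤ, Q (V w n X) := by
  refine builtFrom_le (P := AllPieces V fun _ M => Q M)
    (cls_pieces hV hQ h1 hH fun Y hY hd1 i => hc Y hY (hd1.trans (by exact_mod_cast hd)) i)
    ?_ (fun X hX => hS X hX) hX
  exact (graded_iff hV.toIsWeightTheory hQ.toTwist h1 hH d).1.mp fun Y hY hd1 i => hc Y hY hd1 i

end

lemma point_pieces {T : Motives k Ω} (hT : IsMotives T) {Q : T.C → Prop} {ten : T.C → T.C → T.C}
    (hQ : IsTensorClass Q T.tw ten) (h : Q (T.V 0 0 (aff k k))) :
    AllPieces T.V (fun _ M => Q M) (aff k k) := by
  intro w n
  by_cases h0 : w ≠ 0 ∨ n ≠ 0
  · exact hQ.zero _ (hT.point_zero w n h0)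
  · push Not at h0
    obtain ⟨rfl, rfl⟩ := h0
    exact h

lemma semisimple_class {T : Motives k Ω} (hT : IsMotives T) {ten : T.C → T.C → T.C}
    (hten : Chevalley T ten) : IsTensorClass (fun M => T.Semisimple M) T.tw ten where
  zero M hM := (twistClass hT).zero 0 M hM
  retract i r h hN := (twistClass hT).retract 0 i r h hN
  sum hM hN := (twistClass hT).sum 0 hM hN
  twist r M := (twistClass hT).twist 0 r M
  tensor hM hN := hten _ _ hM hN

/-- **Semisimplicity of Galois representations for schemes which are built from known cases.** Let `T` be a
theory of motives over the field `k` of characteristic zero, with the tensor product `ten`.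

(1) For every `d ≥ 1` and every class `S` of schemes over `k` the preimages and systems given by
polynomials with separated variables are built from schemes of dimension at most `d` and from `S`.
(2) If `X` is built from schemes of dimension at most `d` and from `S`, then all motives `Gr^W_w H^n_c(X)` are
in the tensor category generated by the motives of the smooth projective varieties of dimension at
most `d` and the motives `Gr^W_w H^n_c(X')`, `X'` in `S`.
(3) For every `d ≥ 1` the following are equivalent: the representations `H^i(Y, ℚ_ℓ)` are semisimple for all
smooth projective varieties `Y` over `k` of dimension at most `d`; for all classes `S` of schemes all of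
whose representations `Gr^W_w H^n_c(X, ℚ_ℓ)` are semisimple this holds for the schemes which are built from
schemes of dimension at most `d` and from `S`.
(4) If the motives `Gr^W_w H^n_c(X)` are of abelian type for the known cases `AbelianKnown k`, then also for all
schemes which are built from these; so the representations `Gr^W_w H^n_c(X, ℚ_ℓ)` of these schemes are
semisimple if the `H^i(Y, ℚ_ℓ)` of the smooth projective curves over `k` are. -/
theorem result [CharZero k] {T : Motives k Ω} (hT : IsMotives T) {ten : T.C → T.C → T.C}
    (hV : IsTensorTheory T.V T.tw ten) (hten : Chevalley T ten) (hH : Hironaka k) :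
    (∀ (d : ℕ) (S : Sch k → Prop), 1 ≤ d →
      (SepPreimages k d (BuiltFrom k d S) ∧ SepSystems k d (BuiltFrom k d S)) ∧
      ∀ X : Sch k, BuiltFrom k d S X → ComesFrom T ten d S X) ∧
    (∀ d : ℕ, 1 ≤ d → (T.SmProjUpTo d ↔ ∀ S : Sch k → Prop, (∀ X, S X → T.AllSemisimple X) →
      ∀ X : Sch k, BuiltFrom k d S X → T.AllSemisimple X)) ∧
    ((∀ X : Sch k, AbelianKnown k X → ComesFrom T ten 1 (fun _ => False) X) →
      ∀ X : Sch k, BuiltFrom k 1 (AbelianKnown k) X →
        ComesFrom T ten 1 (fun _ => False) X ∧ (T.SmProjUpTo 1 → T.AllSemisimple X)) := by
  have hss := semisimple_class hT hten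
  have hpt : T.Semisimple (T.V 0 0 (aff k k)) := point_ss hT 0 0
  refine ⟨fun d S hd => ⟨⟨builtFrom_preimages hd, builtFrom_systems hd⟩, fun X hX => ?_⟩,
    fun d hd => ⟨fun h S hS X hX => ?_, fun h Y hY hd1 i => ?_⟩, fun hK X hX => ?_⟩
  · exact pieces hV hH hd typeFrom_class (point_pieces hT typeFrom_class .point)
      (fun Y hY hd1 i => .variety hY hd1 i) (fun Y hY w n => .base hY w n) hX
  · exact pieces hV hH hd hss (point_pieces hT hss hpt) (fun Y hY hd1 i => h Y hY hd1 i)
      (fun Y hY => hS Y hY) hX
  · have hp := hY.proper
    exact h (fun _ => False) (fun _ h0 => h0.elim) Y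
      (.dim ⟨inferInstance, inferInstance, fun _ => inferInstance⟩ hd1) i i
  · have hc : ComesFrom T ten 1 (fun _ => False) X :=
      pieces hV hH le_rfl typeFrom_class (point_pieces hT typeFrom_class .point)
        (fun Y hY hd1 i => .variety hY hd1 i) (fun Y hY => hK Y hY) hX
    exact ⟨hc, fun h w n => typeFrom_le hss hpt (fun Y hY hd1 i => h Y hY hd1 i)
      (fun _ h0 => h0.elim) (hc w n)⟩

end Pool.Agent.Results.MP_b4801b_ag.BuiltFromKnownCases
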