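import Pool.Agent.V5helper84.TS.C5

/-!
# Semisimplicity and Tate classes in exterior powers of one cohomology group

Let `X` be a smooth projective variety over the rational numbers (not necessarily geometrically
connected, for instance any smooth projective variety over a number field; the case of a finitely
generated field is reduced to this one by specialization), let `w > 0` and let `V` be the `w`-th
`ℓ`-adic cohomology of `X` over an algebraic closure. By the hard Lefschetz theorem, Poincaré duality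
and the Weil conjectures the representation `V` of the absolute Galois group of `ℚ` is continuous,
carries a nondegenerate symmetric or alternating form with similitude factor `c ^ w`, where `c` is the
inverse of the cyclotomic character, and is pure of weight `w`: this is the structure `PurePolarized`.

The `n`-th exterior power `⋀^n V` is the dual space of the space of alternating `n`-forms on `V`. By
means of the form `B` both spaces are, up to Tate twists, the same direct summand of the cohomology of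
`X ^ n` (in degree `n * w`), and the elements of them on which an open subgroup of the Galois group
acts by a power of `c` are the potential Tate classes.

By the theorem below the semisimplicity of `V` is equivalent to the existence of certain Tate classes
in the exterior powers of `V` up to the middle one, and it follows from the nondegeneracy of the
pairing (the intersection form) on the Tate classes in these exterior powers. By the Hodge index
theorem the pairing is nondegenerate on motivated (in the sense of André) classes. So `V` is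
semisimple if the potential Tate classes in the `n`-th exterior power of `V`, for those
`n ≤ dim V / 2` with an isotropic relation at all good primes, are motivated; no variety other than the
powers `X ^ n` is needed. In general there are no isotropic relations, and then there is no condition.

The proof uses the theorem of Kronecker and Weber and the `ℓ`-adic six exponentials theorem to see that
the determinant of a stable subspace is, up to characters of finite order, a power of `c`.
-/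

set_option autoImplicit false

namespace Pool.Agent.Results.MP_b4801b_ag.ExteriorTateClasses

open NumberField Polynomial Module

/-- the absolute Galois group of `ℚ`, with the profinite (Krull) topology -/
abbrev G : Type := Gal(AlgebraicClosure ℚ/ℚ)

/-- `σ` is a Frobenius element at the prime number `q`: there is a maximal ideal `Q` of the ring of
all algebraic integers that contains `q`, with `σ x ≡ x ^ q` modulo `Q` for all `x` -/
def IsFrobenius (q : ℕ) (σ : G) : Prop :=
  ∃ Q : Ideal (𝓞 (AlgebraicClosure ℚ)), Q.IsMaximal ∧ (q : 𝓞 (AlgebraicClosure ℚ)) ∈ Q ∧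
    ∀ x : 𝓞 (AlgebraicClosure ℚ), σ • x - x ^ q ∈ Q

/-- The representation `ρ` is pure of weight `w` at `q` with Frobenius polynomial `P`, which has
integral coefficients, and `c` has the value `q` there. -/
def IsPureAt {ℓ : ℕ} [Fact ℓ.Prime] {V : Type} [AddCommGroup V] [Module ℚ_[ℓ] V]
    [FiniteDimensional ℚ_[ℓ] V] (ρ : G →* (V →ₗ[ℚ_[ℓ]] V)) (c : G →* ℚ_[ℓ]ˣ) (w q : ℕ) (P : ℤ[X]) :
    Prop :=
  P.Monic ∧ (∀ z : ℂ, aeval z P = 0 → ‖z‖ ^ 2 = (q : ℝ) ^ w) ∧
    ∀ σ : G, IsFrobenius q σ → (c σ⁻¹ : ℚ_[ℓ]) = q ∧ (ρ σ⁻¹).charpoly = P.map (algebraMap ℤ ℚ_[ℓ])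

/-- A representation `ρ` of the absolute Galois group of `ℚ` on a vector space `V` over the `ℓ`-adic
numbers which is
* continuous,
* polarized: the Galois group acts by similitudes, with factor `c ^ w`, of a nondegenerate symmetric
  or alternating form `B`, where `c` is the inverse of the cyclotomic character (a continuous
  character with value `q` at the inverse of a Frobenius element at `q`, for all prime numbers `q`
  outside the finite set `S`),
* pure of weight `w`: for prime numbers `q` outside `S` the inverse of a Frobenius element at `q` has a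
  characteristic polynomial `P q` with integral coefficients, whose complex roots have absolute
  value `q ^ (w / 2)`. -/
structure PurePolarized (ℓ w : ℕ) [Fact ℓ.Prime] (V : Type) [AddCommGroup V] [Module ℚ_[ℓ] V]
    [FiniteDimensional ℚ_[ℓ] V] where
  ρ : G →* (V →ₗ[ℚ_[ℓ]] V)
  continuous : ∀ (φ : V →ₗ[ℚ_[ℓ]] ℚ_[ℓ]) (x : V), Continuous fun g => φ (ρ g x)
  c : G →* ℚ_[ℓ]ˣ
  continuous_c : Continuous fun g => (c g : ℚ_[ℓ])
  B : LinearMap.BilinForm ℚ_[ℓ] V
  nondegenerate : B.Nondegenerate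
  symm_or_alt : B.IsSymm ∨ B.IsAlt
  similitude : ∀ (g : G) (x y : V), B (ρ g x) (ρ g y) = (c g : ℚ_[ℓ]) ^ w * B x y
  S : Finset ℕ
  P : ℕ → ℤ[X]
  pure : ∀ q : ℕ, q.Prime → q ∉ S → IsPureAt ρ c w q (P q)

namespace PurePolarized

variable {ℓ w : ℕ} [Fact ℓ.Prime] {V : Type} [AddCommGroup V] [Module ℚ_[ℓ] V]
    [FiniteDimensional ℚ_[ℓ] V] (A : PurePolarized ℓ w V)

/-- the subspace `W` is stable under the Galois group -/
def IsStable (W : Submodule ℚ_[ℓ] V) : Prop := ∀ g : G, ∀ x ∈ W, A.ρ g x ∈ W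

/-- the subspace `W` has a stable complement -/
def HasStableComplement (W : Submodule ℚ_[ℓ] V) : Prop :=
  ∃ W' : Submodule ℚ_[ℓ] V, A.IsStable W' ∧ IsCompl W W'

/-- the representation is semisimple: every stable subspace has a stable complement -/
def IsSemisimple : Prop := ∀ W : Submodule ℚ_[ℓ] V, A.IsStable W → A.HasStableComplement W

/-- the stable subspace `W` is irreducible -/
def IsIrreducible (W : Submodule ℚ_[ℓ] V) : Prop :=
  A.IsStable W ∧ W ≠ ⊥ ∧ ∀ W' : Submodule ℚ_[ℓ] V, A.IsStable W' → W' ≤ W → W' = ⊥ ∨ W' = W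

/-- the form `B` vanishes on the subspace `W` -/
def IsIsotropic (W : Submodule ℚ_[ℓ] V) : Prop := ∀ x ∈ W, ∀ y ∈ W, A.B x y = 0

/-- a potential Tate class `φ` among the alternating `n`-forms on `V` (the `n`-th exterior power of the
dual space): an open subgroup of the Galois group acts by `c ^ m` -/
def IsTateForm {n : ℕ} (m : ℕ) (φ : V [⋀^Fin n]→ₗ[ℚ_[ℓ]] ℚ_[ℓ]) : Prop :=
  ∃ Δ : Subgroup G, IsOpen (Δ : Set G) ∧
    ∀ g ∈ Δ, ∀ x : Fin n → V, φ (fun i => A.ρ g (x i)) = (A.c g : ℚ_[ℓ]) ^ m * φ x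

/-- a potential Tate class `t` in the `n`-th exterior power of `V` (the dual space of the space of
alternating `n`-forms): an open subgroup of the Galois group acts by `c ^ m` -/
def IsTateClass {n : ℕ} (m : ℕ) (t : (V [⋀^Fin n]→ₗ[ℚ_[ℓ]] ℚ_[ℓ]) →ₗ[ℚ_[ℓ]] ℚ_[ℓ]) : Prop :=
  ∃ Δ : Subgroup G, IsOpen (Δ : Set G) ∧
    ∀ g ∈ Δ, ∀ φ, t (φ.compLinearMap (A.ρ g)) = (A.c g : ℚ_[ℓ]) ^ m * t φ

/-- the exterior product of the vectors `x 1, ..., x n` -/
noncomputable def wedge {n : ℕ} (x : Fin n → V) : (V [⋀^Fin n]→ₗ[ℚ_[ℓ]] ℚ_[ℓ]) →ₗ[ℚ_[ℓ]] ℚ_[ℓ] where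
  toFun φ := φ x
  map_add' _ _ := rfl
  map_smul' _ _ := rfl

/-- the line `⋀^n W` in `⋀^n V`, where `n` is the dimension of `W`, consists of potential Tate classes
(of codimension `m = n * w / 2`) -/
def IsTateLine (W : Submodule ℚ_[ℓ] V) : Prop :=
  ∃ m : ℕ, 2 * m = finrank ℚ_[ℓ] W * w ∧ ∀ x : Fin (finrank ℚ_[ℓ] W) → V, (∀ i, x i ∈ W) →
    A.IsTateClass m (wedge (ℓ := ℓ) x)

/-- there is a potential Tate class among the alternating `n`-forms on `V`, where `n` is the dimension
of `W`, whose restriction to `W` is not zero -/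
def IsDetected (W : Submodule ℚ_[ℓ] V) : Prop :=
  ∃ (m : ℕ) (φ : V [⋀^Fin (finrank ℚ_[ℓ] W)]→ₗ[ℚ_[ℓ]] ℚ_[ℓ]), 2 * m = finrank ℚ_[ℓ] W * w ∧
    A.IsTateForm m φ ∧ ∃ x : Fin (finrank ℚ_[ℓ] W) → V, (∀ i, x i ∈ W) ∧ φ x ≠ 0

/-- nondegeneracy of the pairing on potential Tate classes in the `n`-th exterior power of `V` -/
def IsNondegenerate (n : ℕ) : Prop :=
  ∀ (m : ℕ) (t : (V [⋀^Fin n]→ₗ[ℚ_[ℓ]] ℚ_[ℓ]) →ₗ[ℚ_[ℓ]] ℚ_[ℓ]), 2 * m = n * w →
    A.IsTateClass m t → t ≠ 0 → ∃ φ, A.IsTateForm m φ ∧ t φ ≠ 0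

/-- an isotropic relation of size `n` between the roots of the Frobenius polynomial at `p`: a monic
polynomial `Q` of degree `n` over the `ℓ`-adic numbers such that the roots `z` of `Q` together with
the numbers `p ^ w / z` are (with multiplicities) among the roots of `P p`, and such that the product of
the roots of `Q` is a square root of `p ^ (w * n)` times a root of unity -/
def IsotropicRelation (p n : ℕ) : Prop :=
  ∃ (Q : ℚ_[ℓ][X]) (k : ℕ), 0 < k ∧ Q.Monic ∧ Q.natDegree = n ∧
    Q.aroots (AlgebraicClosure ℚ_[ℓ]) +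
      (Q.aroots (AlgebraicClosure ℚ_[ℓ])).map (fun z => (p : AlgebraicClosure ℚ_[ℓ]) ^ w / z) ≤
        (A.P p).aroots (AlgebraicClosure ℚ_[ℓ]) ∧
    (Q.aroots (AlgebraicClosure ℚ_[ℓ])).prod ^ (2 * k) = (p : AlgebraicClosure ℚ_[ℓ]) ^ (w * n * k)

end PurePolarized

open Pool.Agent.V5helper84.TS

theorem setup {ℓ w : ℕ} [Fact ℓ.Prime] {V : Type} [AddCommGroup V] [Module ℚ_[ℓ] V]
    [FiniteDimensional ℚ_[ℓ] V] (A : PurePolarized ℓ w V) : ∀ q : ℕ, q.Prime → q ∉ A.S →
      ∀ P : Ideal (𝓞 (AlgebraicClosure ℚ)), P.IsMaximal → (q : 𝓞 (AlgebraicClosure ℚ)) ∈ P →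
      ∀ σ, Pool.Agent.W569.FM.FrobAt q P σ → (A.c σ⁻¹ : ℚ_[ℓ]) = q ∧ (A.P q).Monic ∧
        (A.ρ σ⁻¹).charpoly = (A.P q).map (algebraMap ℤ ℚ_[ℓ]) ∧
        ∀ z : ℂ, aeval z (A.P q) = 0 → ‖z‖ ^ 2 = (q : ℝ) ^ w :=
  fun q hq hqS P hP hqP σ hσ => by
    obtain ⟨h1, h2, h3⟩ := A.pure q hq hqS
    obtain ⟨h4, h5⟩ := h3 σ ⟨P, hP, hqP, hσ⟩
    exact ⟨h4, h1, h5, h2⟩

theorem setup' {ℓ w : ℕ} [Fact ℓ.Prime] {V : Type} [AddCommGroup V] [Module ℚ_[ℓ] V]
    [FiniteDimensional ℚ_[ℓ] V] (A : PurePolarized ℓ w V) : ∀ q : ℕ, q.Prime → q ∉ A.S →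
      ∀ P : Ideal (𝓞 (AlgebraicClosure ℚ)), P.IsMaximal → (q : 𝓞 (AlgebraicClosure ℚ)) ∈ P →
      ∀ σ, Pool.Agent.W569.FM.FrobAt q P σ → (A.c σ⁻¹ : ℚ_[ℓ]) = q ∧ ∃ R : ℤ[X], R.Monic ∧
        (A.ρ σ⁻¹).charpoly = R.map (algebraMap ℤ ℚ_[ℓ]) ∧
        ∀ z : ℂ, aeval z R = 0 → ‖z‖ ^ 2 = (q : ℝ) ^ w :=
  fun q hq hqS P hP hqP σ hσ => ⟨(setup A q hq hqS P hP hqP σ hσ).1, A.P q,
    (setup A q hq hqS P hP hqP σ hσ).2⟩

theorem refl {ℓ w : ℕ} [Fact ℓ.Prime] {V : Type} [AddCommGroup V] [Module ℚ_[ℓ] V]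
    [FiniteDimensional ℚ_[ℓ] V] (A : PurePolarized ℓ w V) : A.B.IsRefl :=
  A.symm_or_alt.elim LinearMap.BilinForm.IsSymm.isRefl LinearMap.BilinForm.IsAlt.isRefl

theorem part1 {ℓ w : ℕ} [Fact ℓ.Prime] (hw : 0 < w) {V : Type} [AddCommGroup V] [Module ℚ_[ℓ] V]
    [FiniteDimensional ℚ_[ℓ] V] (A : PurePolarized ℓ w V) (W : Submodule ℚ_[ℓ] V)
    (hW : A.IsStable W) :
    A.IsTateLine W ∧ (A.HasStableComplement W ↔ A.IsDetected W) := by
  refine ⟨?_, ?_, ?_⟩
  · obtain ⟨m, hm, Δ, hΔ, h⟩ := tate_line A.ρ A.continuous A.c A.continuous_c hw A.S (setup' A) W hW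
    exact ⟨m, hm, fun x hx => ⟨Δ, hΔ, fun g hg φ => h g hg φ x hx⟩⟩
  · intro h
    exact form_of_splits A.ρ A.continuous A.c A.continuous_c hw A.S (setup' A) W hW h
  · rintro ⟨m, φ, hm, hφ, x, hx, h0⟩
    exact splits_of_form A.ρ A.c W hW φ hφ x hx h0

theorem part2 {ℓ w : ℕ} [Fact ℓ.Prime] (hw : 0 < w) {V : Type} [AddCommGroup V] [Module ℚ_[ℓ] V]
    [FiniteDimensional ℚ_[ℓ] V] (A : PurePolarized ℓ w V) :
    A.IsSemisimple ↔ ∀ W : Submodule ℚ_[ℓ] V, 2 * finrank ℚ_[ℓ] W ≤ finrank ℚ_[ℓ] V →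
      A.IsIrreducible W → A.IsIsotropic W → A.IsDetected W := by
  constructor
  · intro h W _ hW _
    exact (part1 hw A W hW.1).2.1 (h W hW.1)
  · intro h U hU
    refine semisimple_of A.ρ A.B (refl A) A.c A.similitude (fun W hW hW0 hmin hiso => ?_) U hU
    have h1 : 2 * finrank ℚ_[ℓ] W ≤ finrank ℚ_[ℓ] V := by
      have h2 : finrank ℚ_[ℓ] (A.B.orthogonal W) = finrank ℚ_[ℓ] V - finrank ℚ_[ℓ] W :=
        LinearMap.BilinForm.finrank_orthogonal A.nondegenerate W
      have h3 := Submodule.finrank_mono hiso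
      have h4 := Submodule.finrank_le W
      omega
    exact (part1 hw A W hW).2.2 (h W h1 ⟨hW, hW0, hmin⟩ fun x hx y hy => hiso hy x hx)

/-- **Semisimplicity and Tate classes in exterior powers.** Let `V` be a pure polarized representation
of weight `w > 0` of the absolute Galois group of `ℚ`.
(1) For a stable subspace `W` of dimension `n` the number `n * w` is even and the line `⋀^n W`
consists of potential Tate classes; `W` has a stable complement if and only if there is a potential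
Tate class among the alternating `n`-forms on `V` which does not vanish on `W`.
(2) `V` is semisimple if and only if this is the case for all irreducible isotropic stable subspaces
(their dimension is at most half the dimension of `V`).
(3) `V` is semisimple if for all `n > 0` with `2 * n ≤ dim V` and `n * w` even, for which the
Frobenius polynomials at all good primes have isotropic relations of size `n`, the pairing is
nondegenerate on the potential Tate classes in `⋀^n V`. -/
theorem result (ℓ w : ℕ) [Fact ℓ.Prime] (hw : 0 < w) (V : Type) [AddCommGroup V] [Module ℚ_[ℓ] V]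
    [FiniteDimensional ℚ_[ℓ] V] (A : PurePolarized ℓ w V) :
    (∀ W : Submodule ℚ_[ℓ] V, A.IsStable W →
      A.IsTateLine W ∧ (A.HasStableComplement W ↔ A.IsDetected W)) ∧
    (A.IsSemisimple ↔ ∀ W : Submodule ℚ_[ℓ] V, 2 * finrank ℚ_[ℓ] W ≤ finrank ℚ_[ℓ] V →
      A.IsIrreducible W → A.IsIsotropic W → A.IsDetected W) ∧
    ((∀ n : ℕ, 0 < n → 2 * n ≤ finrank ℚ_[ℓ] V →
      (∀ p : ℕ, p.Prime → p ∉ A.S → A.IsotropicRelation p n) → A.IsNondegenerate n) →
      A.IsSemisimple) := by
  refine ⟨part1 hw A, part2 hw A, fun h => (part2 hw A).2 fun W hn hW hiso => ?_⟩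
  obtain ⟨m, hm, hT⟩ := (part1 hw A W hW.1).1
  have hn0 : 0 < finrank ℚ_[ℓ] W := by
    rw [Nat.pos_iff_ne_zero]
    intro h0
    exact hW.2.1 (Submodule.finrank_eq_zero.1 h0)
  have hrel : ∀ p : ℕ, p.Prime → p ∉ A.S → A.IsotropicRelation p (finrank ℚ_[ℓ] W) := by
    intro p hp hpS
    obtain ⟨Q, k, hk, hQ, hprod⟩ := isoRel_of_isotropic A.ρ A.continuous A.B A.nondegenerate A.c
      A.continuous_c hw A.similitude A.S A.P (setup A) W hW.1 (fun x hx y hy => hiso y hy x hx)
      hp hpS
    obtain ⟨h1, h2, h3⟩ := hQ 0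
    refine ⟨Q 0, k, hk, h1, h2, ?_, ?_⟩
    · rw [Nat.cast_pow] at h3
      exact h3
    · rw [Fin.prod_univ_one, Nat.cast_pow, ← pow_mul] at hprod
      rw [hprod]
      congr 1
      ring
  -- a basis of `W`
  let b := finBasis ℚ_[ℓ] W
  obtain ⟨r, hr⟩ := LinearMap.exists_extend (LinearMap.id : W →ₗ[ℚ_[ℓ]] W)
  have hne : PurePolarized.wedge (ℓ := ℓ) (fun i => (b i : V)) ≠ 0 := by
    intro h0
    have h1 := LinearMap.congr_fun h0 (b.det.compLinearMap r)
    have h2 : (fun i => r (b i : V)) = b := by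
      funext i
      exact LinearMap.congr_fun hr (b i)
    change b.det (fun i => r (b i : V)) = 0 at h1
    rw [h2, b.det_self] at h1
    exact one_ne_zero h1
  obtain ⟨φ, hφ, h0⟩ := h _ hn0 hn hrel m _ hm (hT _ fun i => (b i).2) hne
  exact ⟨m, φ, hm, hφ, _, fun i => (b i).2, h0⟩

end Pool.Agent.Results.MP_b4801b_ag.ExteriorTateClasses
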