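import Pool.Agent.V5helper94.SV.Sep
import Pool.Agent.V5helper77.GS.Main
import Pool.Agent.V5helper52.PT.Open
import Pool.Agent.V5helper52.VM.Main

/-!
# Semisimplicity of Galois representations and systems of equations with few terms

For a scheme `X` over a field `k` of characteristic zero the graded pieces `Gr^W_w H^n_c(X, ℚ_ℓ)` of the
cohomology with compact support are the realizations of motives (of André); `T` is such a theory of
motives, with realizations over the field `Ω = ℚ_ℓ`. For smooth projective varieties
`H^n(X, ℚ_ℓ) = Gr^W_n H^n_c(X, ℚ_ℓ)`.

Let `E` be a `k`-algebra of finite type and let `F_1, …, F_r` be polynomials in `N` variables over `E` with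
few terms:

1. `dim E ≤ d`, and the ideal `(F_1, …, F_r)` is generated by polynomials of Vandermonde type
   `∑_{m ∈ S, p(m) = β} b(m)^{δ(β) - i} c(m)^i a(m) x^m`, `0 ≤ i ≤ δ(β)`, where `S` is a finite set of affinely
   independent exponents, divided into blocks by `p`, with `b(m)`, `c(m)` in `k` and `a(m)` in `E`;
2. or `E = k`, `r ≤ 2`, and together the `F_i` have at most `d + 3` monomials;
3. or `E = k`, and all exponents are in an affine subspace of dimension at most `d + 1`.

The closed subscheme `V(F)` of the affine space `𝔸^N` over `Spec E` and its complement are built from
schemes of dimension at most `d` (`Built k d`: closed-open decompositions, affine bundles, the passage from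
`X × 𝔾_m` to `X`, products, and the passage from `Y` to `X` for finite free coverings `Y → X`). Hence all
motives `Gr^W_w H^n_c` of `V(F)` and of the complement are in the tensor category generated by the motives
`H^i(Y)` of the smooth projective varieties `Y` of dimension at most `d`, and their `ℓ`-adic realizations
are semisimple if those of the `H^i(Y)` are. For `d = 1` and `k` finitely generated this is known
(Faltings): so all representations `Gr^W_w H^n_c(V(F), ℚ_ℓ)` are semisimple for one polynomial with
affinely independent exponents and coefficients in the ring of functions of a curve, for two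
polynomials over `k` with affinely independent exponents, for the intersections
`∑_j q_j^i x_j^e = 0`, `0 ≤ i ≤ δ`, of Fermat hypersurfaces, and for systems which consist of such systems with
different exponents.

Idea of the proof for `E = k`: stratify the affine space by the coordinate subspaces. In the torus a system
with affinely independent exponents is, up to a finite free covering and a factor `𝔾_m^b`, a system of
equations of Fermat `∑_j M_ij u_j^e = 0`. Systems with several blocks are products. In one block proportional
columns of `M` are merged, by the induction for the Fermat equation; if the columns are the points `q_j` of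
a rational normal curve, then the system is `∑_j A_j q_j^i u_j^e = 0`, `0 ≤ i ≤ δ`, and is dominated by a power
of the curve `u_j^e = x - q_j` (interpolation: `u_j^e` is proportional to `P(q_j)` for a polynomial `P`). The coefficients `a(m)` can be removed by an action of a
torus after roots of the `a(m)` have been adjoined to the base.
-/

set_option autoImplicit false

open CategoryTheory AlgebraicGeometry MvPolynomial
open Pool.Agent.Y116.UV Pool.Agent.Z125.UN Pool.Agent.V5helper77.GW Pool.Agent.V5helper77.GS
  Pool.Agent.V5helper94.SV Pool.Agent.V5helper52.SF Pool.Agent.V5helper52.VM

namespace Pool.Agent.Results.MP_b4801b_ag.FewTerms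

variable {k : Type} [Field k] {Ω : Type} [Field Ω]

/-- All motives `Gr^W_w H^n_c(X)` come from dimension at most `d` (for `d = 1`: are of abelian type). -/
def ComesFrom (T : Motives k Ω) (ten : T.C → T.C → T.C) (d : ℕ) (X : Sch k) : Prop :=
  ∀ w n : ℤ, LowType T.V T.tw ten d (T.V w n X)

/-- The tensor product of two motives with semisimple realizations has a semisimple realization. This is
a theorem of Chevalley: the realization of the tensor product is the tensor product of the
realizations, which are finite dimensional, over the field `ℚ_ℓ` of characteristic zero. -/
def Chevalley (T : Motives k Ω) (ten : T.C → T.C → T.C) : Prop :=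
  ∀ M N : T.C, T.Semisimple M → T.Semisimple N → T.Semisimple (ten M N)

/-- **Semisimplicity of Galois representations and systems of equations with few terms.** Let `T` be a
theory of motives over the field `k` of characteristic zero, with the tensor product `ten`, and let `d ≥ 1`.
Let `E` be a `k`-algebra of finite type, and let `F_1, …, F_r` be polynomials in `N` variables over `E` with
few terms (`HasFewTerms k d F`):

1. `dim E ≤ d`, and the ideal `(F_1, …, F_r)` is generated by polynomials of Vandermonde type
   `∑_{m ∈ S, p(m) = β} b(m)^{δ(β) - i} c(m)^i a(m) x^m`, `0 ≤ i ≤ δ(β)`, where `S` is a finite set of affinely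
   independent exponents, divided into blocks by `p`, with `b(m)`, `c(m)` in `k` and `a(m)` in `E`;
2. or `E = k`, `r ≤ 2`, and together the `F_i` have at most `d + 3` monomials;
3. or `E = k`, and the exponents of the monomials of all `F_i` are in an affine subspace of dimension at
   most `d + 1`.

Let `X` be the closed subscheme `F_1 = ⋯ = F_r = 0` of the affine space `𝔸^N` over `Spec E`, or its
complement.

(a) `X` is built from schemes of dimension at most `d`.
(b) All motives `Gr^W_w H^n_c(X)` are in the tensor category generated by the motives of the smooth
projective varieties of dimension at most `d`.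
(c) If the representations `H^i(Y, ℚ_ℓ)` are semisimple for all smooth projective varieties `Y` over `k` of
dimension at most `d`, then all representations `Gr^W_w H^n_c(X, ℚ_ℓ)` are semisimple. -/
theorem result [CharZero k] {T : Motives k Ω} (hT : IsMotives T) {ten : T.C → T.C → T.C}
    (hV : IsTensorTheory T.V T.tw ten) (hten : Chevalley T ten) (hH : Hironaka k) {d : ℕ}
    (hd : 1 ≤ d) {E : Type} [CommRing E] [Algebra k E] [Algebra.FiniteType k E] {N r : ℕ}
    (F : Fin r → MvPolynomial (Fin N) E) (hF : HasFewTerms k d F) (X : Sch k)
    (hX : X = aff k (MvPolynomial (Fin N) E ⧸ Ideal.span (Set.range F)) ∨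
      ∃ j : X ⟶ aff k (MvPolynomial (Fin N) E), IsOpenImmersion j.left ∧
        Set.range j.left = {x : PrimeSpectrum (MvPolynomial (Fin N) E) | ∃ i, F i ∉ x.asIdeal}) :
    Built k d X ∧ ComesFrom T ten d X ∧ (T.SmProjUpTo d → T.AllSemisimple X) := by
  have hpt : AllPieces T.V (fun _ M => LowType T.V T.tw ten d M) (aff k k) := by
    intro w n
    by_cases h : w ≠ 0 ∨ n ≠ 0
    · exact .zero (hT.point_zero w n h)
    · push Not at h
      obtain ⟨rfl, rfl⟩ := h
      exact .point
  have key : ∀ X : Sch k, Built k d X → ComesFrom T ten d X := by
    intro X hX
    have hS := lowType_class (V := T.V) (tw := T.tw) (ten := ten) (d := d)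
    refine built_le (P := AllPieces T.V fun _ M => LowType T.V T.tw ten d M)
      (cls_pieces hV hS hpt hH fun Y hY hd1 i => .variety hY (hd1.trans (by exact_mod_cast hd)) i)
      ?_ hX
    exact (graded_iff hV.toIsWeightTheory hS.toTwist hpt hH d).1.mp fun Y hY hd1 i =>
      .variety hY hd1 i
  have hP := cls_built (k := k) hd
  have hft : Algebra.FiniteType k (MvPolynomial (Fin N) E) :=
    Algebra.FiniteType.trans (S := E) inferInstance inferInstance
  have h1 : Built k d (aff k (MvPolynomial (Fin N) E ⧸ Ideal.span (Set.range F))) :=
    p_main hP (fun _ _ _ _ hA => built_dim hA) F hF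
  have hXb : Built k d X := by
    rcases hX with rfl | ⟨j, hj, hr⟩
    · exact h1
    · exact hP.opened _ j (ft_aff True) (Pool.Agent.V5helper52.PT.triple_fam F X j hj hr) h1
        (p_space hP (fun _ _ _ _ hA => built_dim hA) F hF)
  refine ⟨hXb, key X hXb, fun h w n => ?_⟩
  have hS : IsTensorClass (fun M => T.Semisimple M) T.tw ten :=
    { zero := fun M hM => (twistClass hT).zero 0 M hM
      retract := fun i r h hN => (twistClass hT).retract 0 i r h hN
      sum := fun hM hN => (twistClass hT).sum 0 hM hN
      twist := fun r M => (twistClass hT).twist 0 r M
      tensor := fun hM hN => hten _ _ hM hN }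
  exact lowType_le hS (point_ss hT 0 0) h (key X hXb w n)

end Pool.Agent.Results.MP_b4801b_ag.FewTerms
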