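import Pool.Agent.V5helper77.GS.Main

/-!
# The conjecture of Grothendieck and Serre, trilinear forms and tripartite hypergraphs

For a scheme `X` over a field `k` of characteristic zero the graded pieces `Gr^W_w H^n_c(X, ℚ_ℓ)` of the
cohomology with compact support are the realizations of motives (of André); `T k` is such a theory
of motives, with realizations over the field `Ω = ℚ_ℓ`. For smooth projective varieties
`H^n(X, ℚ_ℓ) = Gr^W_n H^n_c(X, ℚ_ℓ)`.

Idea of the proof. The category of motives is semisimple, so the motives with semisimple realization
form a Serre class, and in the long exact sequences of closed-open decompositions the property that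
all graded pieces are semisimple passes from two of the three schemes to the third. By Hironaka's
theorem it holds for all schemes of dimension at most `n` if it holds for the smooth projective
varieties of dimension at most `n`. Now let `W` be the closed subscheme of an affine space given by the
bilinear equations `S(x, y, ·) = 0`. The hypersurface `S(x, y, z) = 1` is an affine bundle over the
complement of `W`. Every affine scheme `X` of finite type has a presentation by sums of monomials, and
`X × 𝔾_m × 𝔾_m` is the difference of two such schemes `W`. The dimension is under control because `W`
is, over the locus in the space of the variables of the shortest block where the rank of `S` is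
constant, a vector bundle, and conversely every closed subscheme of an affine space is such a locus
for matrices of linear forms. Finitely generated fields are reduced to number fields by the
specialization theorem for the image of the Galois group, and number fields to the rational numbers
by induction of representations.
-/

set_option autoImplicit false

open CategoryTheory AlgebraicGeometry
open Pool.Agent.Y116.UV Pool.Agent.V5helper77.GW Pool.Agent.V5helper77.GS

namespace Pool.Agent.Results.MP_b4801b_ag.TrilinearForms

/-- **Semisimplicity of Galois representations and trilinear forms.**
(1) The conjecture of Grothendieck and Serre holds for `Ω = ℚ_ℓ`, all finitely generated fields `k` of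
characteristic zero, all smooth projective varieties over `k` and all degrees, if and only if the
representations `Gr^W_w H^n_c(X, ℚ_ℓ)` of the Galois group of `ℚ` are semisimple for the smooth affine
cubic hypersurfaces `X : ∑_{(i, j, k) ∈ H} x_i y_j z_k = 1` over `ℚ`, `H` any tripartite hypergraph.
(2) For every field `k` of characteristic zero and every `n`, the conjecture for all smooth projective
varieties over `k` of dimension at most `n` is equivalent to the semisimplicity of all
`Gr^W_w H^i_c(X, ℚ_ℓ)` for all separated schemes `X` of finite type of dimension at most `n`, and
(3) it is equivalent to the semisimplicity of all `Gr^W_w H^i_c(X, ℚ_ℓ)` for the hypersurfaces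
`X : S(x, y, z) = 1`, `S` a trilinear form over `k` one of whose three blocks of variables has at most
`n + 2` variables. For `n = 1` and `k` finitely generated the conjecture is known (Faltings), and so all
`Gr^W_w H^i_c(X, ℚ_ℓ)` are semisimple for all `S(x, y, z) = 1` with a block of at most three
variables. -/
theorem result {Ω : Type} [Field Ω] (T : ∀ (k : Type) [Field k] [CharZero k], Motives k Ω)
    (hT : IsTheory T) (hH : ∀ (k : Type) [Field k] [CharZero k], Hironaka k) :
    (GrothendieckSerre T ↔ (T ℚ).HypergraphCubics) ∧
    ∀ (k : Type) [Field k] [CharZero k] (n : ℕ),
      ((T k).SmProjUpTo n ↔ (T k).SchemesUpTo n) ∧
      ((T k).SmProjUpTo n ↔ (T k).CubicsUpTo (n + 2)) :=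
  ⟨graph_iff hT hH, fun k _ _ n => field_graded (hT.field k) (hH k) n⟩

end Pool.Agent.Results.MP_b4801b_ag.TrilinearForms
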